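import Pool.Agent.H.MP_374efc_lc.Base

/-!
# MP_374efc_lc: systems with integer weights which are multiplied by a prime power

`dv l u x b` is the sum of `u ^ (weight of y)` over all factorizations `x = y b z`.  Over a field of characteristic `p`
and for weights with `l (H a) = p ^ m * l a` the vectors of the words `w_i` are obtained from each other by a semilinear map,
so the first `n` of them are independent for every `u ≠ 0` as soon as the words are contained in no proper stable submonoid.
-/

set_option autoImplicit false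

namespace D0L.Uni

variable {n : ℕ}

/-- The weight of a word. -/
def wt (l : Fin n → ℕ) (x : List (Fin n)) : ℕ := (x.map l).sum

theorem wt_nil (l : Fin n → ℕ) : wt l [] = 0 := rfl

theorem wt_cons (l : Fin n → ℕ) (a : Fin n) (x : List (Fin n)) : wt l (a :: x) = l a + wt l x := by
  simp [wt]

theorem wt_append (l : Fin n → ℕ) (x y : List (Fin n)) : wt l (x ++ y) = wt l x + wt l y := by
  simp [wt]

/-- The derivatives of a word at `u`. -/
def dv {R : Type} [CommSemiring R] (l : Fin n → ℕ) (u : R) : List (Fin n) → Fin n → R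
  | [] => fun _ => 0
  | a :: x => fun b => (if a = b then 1 else 0) + u ^ l a * dv l u x b

section Semiring

variable {R S : Type} [CommSemiring R] [CommSemiring S] (l : Fin n → ℕ)

theorem dv_nil (u : R) (b : Fin n) : dv l u [] b = 0 := rfl

theorem dv_cons (u : R) (a : Fin n) (x : List (Fin n)) (b : Fin n) :
    dv l u (a :: x) b = (if a = b then 1 else 0) + u ^ l a * dv l u x b := rfl

theorem dv_append (u : R) (x y : List (Fin n)) (b : Fin n) :
    dv l u (x ++ y) b = dv l u x b + u ^ wt l x * dv l u y b := by
  induction x with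
  | nil => rw [List.nil_append, dv_nil, wt_nil, pow_zero, one_mul, zero_add]
  | cons a x ih => rw [List.cons_append, dv_cons, ih, dv_cons, wt_cons, pow_add]; ring

theorem dv_map (f : R →+* S) (u : R) (x : List (Fin n)) (b : Fin n) :
    f (dv l u x b) = dv l (f u) x b := by
  induction x with
  | nil => rw [dv_nil, dv_nil, map_zero]
  | cons a x ih =>
    rw [dv_cons, dv_cons, map_add, map_mul, map_pow, ih]
    congr 1
    split_ifs <;> simp

theorem dv_app {H : Fin n → List (Fin n)} {k : ℕ} (hl : ∀ a, wt l (H a) = k * l a) (u : R)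
    (x : List (Fin n)) (b : Fin n) :
    dv l u (app H x) b = ∑ c, dv l (u ^ k) x c * dv l u (H c) b := by
  induction x with
  | nil => simp [app_nil, dv_nil]
  | cons a x ih =>
    rw [app_cons, dv_append, ih, hl]
    have h1 : ∀ c, dv l (u ^ k) (a :: x) c * dv l u (H c) b =
        (if a = c then dv l u (H c) b else 0) +
          u ^ (k * l a) * (dv l (u ^ k) x c * dv l u (H c) b) := by
      intro c
      rw [dv_cons, add_mul, ← pow_mul]
      congr 1
      · split_ifs <;> simp
      · ring
    rw [Finset.sum_congr rfl fun c _ => h1 c, Finset.sum_add_distrib, ← Finset.mul_sum]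
    congr 1
    simp

theorem dv_frob (p m : ℕ) [Fact p.Prime] [CharP R p] (u : R) (x : List (Fin n)) (c : Fin n) :
    dv l (u ^ p ^ m) x c = (dv l u x c) ^ p ^ m := by
  have hp : 0 < p ^ m := pow_pos (Fact.out (p := p.Prime)).pos m
  induction x with
  | nil => rw [dv_nil, dv_nil, zero_pow hp.ne']
  | cons a x ih =>
    rw [dv_cons, dv_cons, ih, add_pow_char_pow, mul_pow, ← pow_mul, ← pow_mul, mul_comm (p ^ m) (l a)]
    congr 1
    split_ifs
    · rw [one_pow]
    · rw [zero_pow hp.ne']

end Semiring

theorem dv_rev {K : Type} [Field K] (l : Fin n → ℕ) {u : K} (hu : u ≠ 0) (x : List (Fin n)) (b : Fin n) :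
    u ^ l b * dv l u x b = u ^ wt l x * dv l u⁻¹ x.reverse b := by
  induction x with
  | nil => simp [dv_nil]
  | cons a x ih =>
    have hw : wt l x.reverse = wt l x := by
      rw [wt, List.map_reverse, List.sum_reverse]
      rfl
    rw [List.reverse_cons, dv_append, hw, dv_cons, dv_cons, dv_nil, wt_cons, pow_add]
    have h2 : u ^ wt l x * u⁻¹ ^ wt l x = 1 := by
      rw [← mul_pow, mul_inv_cancel₀ hu, one_pow]
    have h3 : u ^ l b * (if a = b then (1 : K) else 0) = u ^ l a * (if a = b then (1 : K) else 0) := by
      split_ifs with h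
      · rw [h]
      · simp
    calc u ^ l b * ((if a = b then (1 : K) else 0) + u ^ l a * dv l u x b)
        = u ^ l b * (if a = b then (1 : K) else 0) + u ^ l a * (u ^ l b * dv l u x b) := by ring
      _ = u ^ l a * (if a = b then (1 : K) else 0) * (u ^ wt l x * u⁻¹ ^ wt l x) +
          u ^ l a * (u ^ wt l x * dv l u⁻¹ x.reverse b) := by rw [ih, h3, h2, mul_one]
      _ = _ := by ring

/-! ### semilinear recursions -/

section Span

variable {K : Type} [Field K]

theorem span_stable {q : ℕ} (hq : 0 < q) (hadd : ∀ x y : K, (x + y) ^ q = x ^ q + y ^ q)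
    {d : ℕ → Fin n → K} {J : Fin n → Fin n → K} (hd : ∀ i b, d (i + 1) b = ∑ c, (d i c) ^ q * J c b)
    {r : ℕ} (hr : d r ∈ Submodule.span K (Set.range fun i : Fin r => d i)) (i : ℕ) :
    d i ∈ Submodule.span K (Set.range fun i : Fin r => d i) := by
  set S := Submodule.span K (Set.range fun i : Fin r => d i) with hS
  have hstep : ∀ v ∈ S, (fun b => ∑ c, (v c) ^ q * J c b) ∈ S := by
    intro v hv
    induction hv using Submodule.span_induction with
    | mem v hv =>
      obtain ⟨j, rfl⟩ := hv
      have h1 : (fun b => ∑ c, (d j c) ^ q * J c b) = d (j + 1) := by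
        funext b
        exact (hd j b).symm
      change (fun b => ∑ c, (d j c) ^ q * J c b) ∈ S
      rw [h1]
      rcases Nat.lt_or_ge ((j : ℕ) + 1) r with h2 | h2
      · exact Submodule.subset_span ⟨⟨j + 1, h2⟩, rfl⟩
      · have h3 : (j : ℕ) + 1 = r := by
          have := j.2
          omega
        rw [h3]
        exact hr
    | zero =>
      have h1 : (fun b => ∑ c, ((0 : Fin n → K) c) ^ q * J c b) = 0 := by
        funext b
        simp [zero_pow hq.ne']
      rw [h1]
      exact S.zero_mem
    | add v v' _ _ h1 h2 =>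
      have h3 : (fun b => ∑ c, ((v + v') c) ^ q * J c b) =
          (fun b => ∑ c, (v c) ^ q * J c b) + fun b => ∑ c, (v' c) ^ q * J c b := by
        funext b
        simp only [Pi.add_apply, hadd, add_mul, Finset.sum_add_distrib]
      rw [h3]
      exact S.add_mem h1 h2
    | smul t v _ h1 =>
      have h3 : (fun b => ∑ c, ((t • v) c) ^ q * J c b) =
          (t ^ q) • fun b => ∑ c, (v c) ^ q * J c b := by
        funext b
        simp only [Pi.smul_apply, smul_eq_mul, mul_pow, Finset.mul_sum, mul_assoc]
      rw [h3]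
      exact S.smul_mem _ h1
  have hall : ∀ i, d (r + i) ∈ S := by
    intro i
    induction i with
    | zero => exact hr
    | succ i ih =>
      have h1 := hstep _ ih
      have h2 : (fun b => ∑ c, (d (r + i) c) ^ q * J c b) = d (r + (i + 1)) := by
        funext b
        exact (hd (r + i) b).symm
      rwa [h2] at h1
  rcases Nat.lt_or_ge i r with h1 | h1
  · exact Submodule.subset_span ⟨⟨i, h1⟩, rfl⟩
  · obtain ⟨j, rfl⟩ := Nat.exists_eq_add_of_le h1
    exact hall j

theorem exists_dep {d : ℕ → Fin n → K} (hdet : (Matrix.of fun (i : Fin n) b => d i b).det = 0) :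
    ∃ r < n, d r ∈ Submodule.span K (Set.range fun i : Fin r => d i) := by
  by_contra hcon
  push Not at hcon
  have hli : ∀ m ≤ n, LinearIndependent K (fun i : Fin m => d i) := by
    intro m
    induction m with
    | zero => intro _; exact linearIndependent_empty_type
    | succ m ih =>
      intro hm
      rw [linearIndependent_finSucc']
      refine ⟨?_, ?_⟩
      · exact ih (by omega)
      · exact hcon m (by omega)
  have h1 := hli n le_rfl
  have h2 : LinearIndependent K (Matrix.of fun (i : Fin n) b => d i b).row := h1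
  rw [Matrix.linearIndependent_rows_iff_isUnit, Matrix.isUnit_iff_isUnit_det, hdet] at h2
  exact not_isUnit_zero h2

end Span

/-! ### the determinant has no zero -/

theorem det_ne {K : Type} [Field K] {p m : ℕ} [Fact p.Prime] [CharP K p] {N : ℕ} {H : Fin n → List (Fin n)}
    {b0 : List (Fin n)} {l : Fin n → ℕ} (hl : ∀ a, wt l (H a) = p ^ m * l a)
    (hull : ∀ G : List (Fin n) → Prop, G [] → (∀ x y, G x → G y → G (x ++ y)) →
      (∀ x y z, G x → G y → G (x ++ z) → G (z ++ y) → G z) → (∀ i < N, G (it H i b0)) → ∀ x, G x)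
    {u : K} (hu : u ≠ 0) : (Matrix.of fun (i : Fin n) b => dv l u (it H i b0) b).det ≠ 0 := by
  intro hdet
  set d : ℕ → Fin n → K := fun i => dv l u (it H i b0) with hd
  obtain ⟨r, hr, hmem⟩ := exists_dep (d := d) hdet
  have hq : 0 < p ^ m := pow_pos (Fact.out (p := p.Prime)).pos m
  have hrec : ∀ i b, d (i + 1) b = ∑ c, (d i c) ^ p ^ m * dv l u (H c) b := by
    intro i b
    simp only [hd]
    rw [it_succ, dv_app l hl]
    refine Finset.sum_congr rfl fun c _ => ?_
    rw [dv_frob]
  have hall := span_stable hq (fun x y => add_pow_char_pow x y p m) hrec hmem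
  have hlt : Submodule.span K (Set.range fun i : Fin r => d i) < ⊤ := by
    rw [lt_top_iff_ne_top]
    intro htop
    have h1 := finrank_range_le_card (R := K) (b := fun i : Fin r => d i)
    rw [Set.finrank, htop, finrank_top, Module.finrank_fin_fun, Fintype.card_fin] at h1
    omega
  obtain ⟨f, hf, hker⟩ := Submodule.exists_le_ker_of_lt_top _ hlt
  have happ : ∀ x y : List (Fin n), f (dv l u (x ++ y)) = f (dv l u x) + u ^ wt l x * f (dv l u y) := by
    intro x y
    have h1 : dv l u (x ++ y) = dv l u x + u ^ wt l x • dv l u y := by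
      funext b
      rw [dv_append]
      rfl
    rw [h1, map_add, map_smul, smul_eq_mul]
  have hG := hull (fun x => f (dv l u x) = 0)
    (by
      have h1 : dv l u ([] : List (Fin n)) = 0 := by
        funext b
        rfl
      rw [h1, map_zero])
    (by
      intro x y hx hy
      rw [happ, hx, hy, mul_zero, zero_add])
    (by
      intro x y z hx _ hxz _
      rw [happ, hx, zero_add] at hxz
      exact (mul_eq_zero.1 hxz).resolve_left (pow_ne_zero _ hu))
    (by
      intro i _
      exact hker (hall i))
  apply hf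
  apply LinearMap.pi_ext'
  intro b
  apply LinearMap.ext_ring
  have h1 := hG [b]
  have h2 : dv l u [b] = Pi.single b (1 : K) := by
    funext c
    rw [dv_cons, dv_nil, mul_zero, add_zero, Pi.single_apply]
    by_cases hbc : b = c
    · rw [if_pos hbc, if_pos hbc.symm]
    · rw [if_neg hbc, if_neg fun h => hbc h.symm]
  rw [h2] at h1
  simpa using h1

/-- The determinant is constant and not zero. -/
theorem det_const {K : Type} [Field K] [IsAlgClosed K] {p m : ℕ} [Fact p.Prime] [CharP K p] {N : ℕ}
    {H : Fin n → List (Fin n)} {b0 : List (Fin n)} {l : Fin n → ℕ} (hpos : ∀ a, 0 < l a)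
    (hl : ∀ a, wt l (H a) = p ^ m * l a)
    (hull : ∀ G : List (Fin n) → Prop, G [] → (∀ x y, G x → G y → G (x ++ y)) →
      (∀ x y z, G x → G y → G (x ++ z) → G (z ++ y) → G z) → (∀ i < N, G (it H i b0)) → ∀ x, G x)
    (first : ∃ f : Fin n → Fin n, Function.Bijective f ∧ ∀ i : Fin n, ∃ s, it H i b0 = f i :: s) :
    ∃ c : K, c ≠ 0 ∧ ∀ u : K, (Matrix.of fun (i : Fin n) b => dv l u (it H i b0) b).det = c := by
  classical
  obtain ⟨f, hf, hf'⟩ := first
  set P : Polynomial K := (Matrix.of fun (i : Fin n) b => dv l (Polynomial.X : Polynomial K) (it H i b0) b).det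
    with hP
  have hev : ∀ u : K, P.eval u = (Matrix.of fun (i : Fin n) b => dv l u (it H i b0) b).det := by
    intro u
    rw [hP, ← Polynomial.coe_evalRingHom, RingHom.map_det]
    congr 1
    ext i b
    rw [RingHom.mapMatrix_apply, Matrix.map_apply, Matrix.of_apply, Matrix.of_apply, dv_map]
    simp
  have h0 : P.eval 0 ≠ 0 := by
    rw [hev]
    have h1 : (Matrix.of fun (i : Fin n) b => dv l (0 : K) (it H i b0) b) =
        (1 : Matrix (Fin n) (Fin n) K).submatrix (Equiv.ofBijective f hf) id := by
      ext i b
      obtain ⟨s, hs⟩ := hf' i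
      rw [Matrix.of_apply, hs, dv_cons, zero_pow (hpos _).ne', zero_mul, add_zero,
        Matrix.submatrix_apply, Matrix.one_apply]
      rfl
    rw [h1, Matrix.det_permute, Matrix.det_one, mul_one]
    rcases Int.units_eq_one_or (Equiv.Perm.sign (Equiv.ofBijective f hf)) with h2 | h2 <;> simp [h2]
  have hne : ∀ u : K, P.eval u ≠ 0 := by
    intro u
    by_cases hu : u = 0
    · rw [hu]
      exact h0
    · rw [hev]
      exact det_ne hl hull hu
  have hdeg : P.degree = 0 := by
    by_contra hdeg
    obtain ⟨u, hu⟩ := IsAlgClosed.exists_root P hdeg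
    exact hne u hu
  obtain ⟨c, hc⟩ : ∃ c, P = Polynomial.C c := ⟨_, Polynomial.eq_C_of_degree_eq_zero hdeg⟩
  refine ⟨c, ?_, ?_⟩
  · have := hne 0
    rwa [hc, Polynomial.eval_C] at this
  · intro u
    rw [← hev, hc, Polynomial.eval_C]

theorem it_reverse {α : Type} (H : α → List α) (b0 : List α) (i : ℕ) :
    it (fun a => (H a).reverse) i b0.reverse = (it H i b0).reverse := by
  have h1 : ∀ x : List α, app (fun a => (H a).reverse) x.reverse = (app H x).reverse := by
    intro x
    induction x with
    | nil => rfl
    | cons a x ih => rw [List.reverse_cons, app_append, ih, app_singleton, app_cons, List.reverse_append]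
  induction i with
  | zero => rfl
  | succ i ih => rw [it_succ, it_succ, ih, h1]

/-- **Letters.**  If the weights are multiplied by a power of a prime, then the words `w_0, .., w_(n-1)` are letters. -/
theorem letters_of_weights {p m : ℕ} (hp : p.Prime) {N : ℕ} {H : Fin n → List (Fin n)} {b0 : List (Fin n)}
    {l : Fin n → ℕ} (hpos : ∀ a, 0 < l a) (hl : ∀ a, wt l (H a) = p ^ m * l a)
    (hull : ∀ G : List (Fin n) → Prop, G [] → (∀ x y, G x → G y → G (x ++ y)) →
      (∀ x y z, G x → G y → G (x ++ z) → G (z ++ y) → G z) → (∀ i < N, G (it H i b0)) → ∀ x, G x)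
    (first : ∃ f : Fin n → Fin n, Function.Bijective f ∧ ∀ i : Fin n, ∃ s, it H i b0 = f i :: s)
    (last : ∃ f : Fin n → Fin n, Function.Bijective f ∧ ∀ i : Fin n, ∃ s, it H i b0 = s ++ [f i]) :
    ∀ i < n, (it H i b0).length = 1 := by
  have : Fact p.Prime := ⟨hp⟩
  let K := AlgebraicClosure (ZMod p)
  have : CharP K p := charP_of_injective_algebraMap (algebraMap (ZMod p) K).injective p
  obtain ⟨c, hc, hcu⟩ := det_const (K := K) hpos hl hull first
  -- the reversed system
  have hwr : ∀ x : List (Fin n), wt l x.reverse = wt l x := by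
    intro x
    rw [wt, List.map_reverse, List.sum_reverse]
    rfl
  obtain ⟨c', hc', hcu'⟩ := det_const (K := K) (N := N) (H := fun a => (H a).reverse) (b0 := b0.reverse)
    hpos (fun a => by rw [hwr, hl])
    (by
      intro G h1 h2 h3 h4 x
      have h5 := hull (fun x => G x.reverse) (by simpa using h1)
        (by
          intro x y hx hy
          rw [List.reverse_append]
          exact h2 _ _ hy hx)
        (by
          intro x y z hx hy hxz hzy
          rw [List.reverse_append] at hxz hzy
          exact h3 _ _ _ hy hx hzy hxz)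
        (by
          intro i hi
          have := h4 i hi
          rwa [it_reverse] at this)
        x.reverse
      simpa using h5)
    (by
      obtain ⟨f, hf, hf'⟩ := last
      refine ⟨f, hf, fun i => ?_⟩
      obtain ⟨s, hs⟩ := hf' i
      exact ⟨s.reverse, by rw [it_reverse, hs, List.reverse_append]; rfl⟩)
  -- comparison of the two determinants
  have hcomp : ∀ u : K, u ≠ 0 → u ^ (∑ b, l b) * c = u ^ (∑ i : Fin n, wt l (it H i b0)) * c' := by
    intro u hu
    rw [← hcu u, ← hcu' u⁻¹, ← Finset.prod_pow_eq_pow_sum, ← Finset.prod_pow_eq_pow_sum,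
      ← Matrix.det_mul_row, ← Matrix.det_mul_column]
    congr 1
    ext i b
    rw [Matrix.of_apply, Matrix.of_apply, Matrix.of_apply, Matrix.of_apply, dv_rev l hu, it_reverse]
  have hcc : c = c' := by
    have := hcomp 1 one_ne_zero
    simpa using this
  subst hcc
  have hsum : ∑ b, l b = ∑ i : Fin n, wt l (it H i b0) := by
    have h1 : (Polynomial.X ^ (∑ b, l b + 1) : Polynomial K) =
        Polynomial.X ^ (∑ i : Fin n, wt l (it H i b0) + 1) := by
      apply Polynomial.funext
      intro u
      rw [Polynomial.eval_pow, Polynomial.eval_pow, Polynomial.eval_X]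
      by_cases hu : u = 0
      · rw [hu, zero_pow (Nat.succ_ne_zero _), zero_pow (Nat.succ_ne_zero _)]
      · rw [pow_succ, pow_succ, mul_right_cancel₀ hc (hcomp u hu)]
    have h2 := congrArg Polynomial.natDegree h1
    rw [Polynomial.natDegree_X_pow, Polynomial.natDegree_X_pow] at h2
    omega
  obtain ⟨f, hf, hf'⟩ := first
  choose s hs using hf'
  have h1 : ∑ i : Fin n, wt l (it H i b0) = ∑ b, l b + ∑ i, wt l (s i) := by
    rw [← hf.sum_comp l, ← Finset.sum_add_distrib]
    refine Finset.sum_congr rfl fun i _ => ?_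
    rw [hs, wt_cons]
  have h2 : ∑ i, wt l (s i) = 0 := by omega
  intro i hi
  have h3 : wt l (s ⟨i, hi⟩) = 0 := Finset.sum_eq_zero_iff.1 h2 _ (Finset.mem_univ _)
  have h4 : s ⟨i, hi⟩ = [] := by
    rcases hsi : s ⟨i, hi⟩ with _ | ⟨a, x⟩
    · rfl
    · exfalso
      rw [hsi, wt_cons] at h3
      have := hpos a
      omega
  have h5 := hs ⟨i, hi⟩
  rw [h4] at h5
  change it H i b0 = _ at h5
  rw [h5]
  rfl

end D0L.Uni
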