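import Pool.Agent.H.MP_374efc_lc.Uni.U1
import Pool.Agent.H.MP_374efc_lc.Bim.Perron

/-!
# MP_374efc_lc: normal forms whose words have length of order `q ^ n`, `q` a prime power

The Perron eigenvalue is `q`, so the Perron weights are integers (the vectors of `w_0, .., w_(n-1)` are a basis of `ℤ ^ n`),
and `letters_of_weights` applies.
-/

set_option autoImplicit false

namespace D0L.Uni

open D0L.Bim

variable {n N : ℕ} {H : Fin n → List (Fin n)} {b0 : List (Fin n)}

/-- The lengths of the words are of order `q ^ n`. -/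
def Gq {α : Type} (q : ℕ) (h : α → List α) (w : List α) : Prop :=
  ∃ C : ℕ, ∀ i, q ^ i ≤ C * (it h i w).length ∧ (it h i w).length ≤ C * q ^ i

theorem pow_bdd {x y : ℝ} (hy : 0 < y) {D : ℝ} (h : ∀ i : ℕ, x ^ i ≤ D * y ^ i) : x ≤ y := by
  by_contra hcon
  push Not at hcon
  have h1 : 1 < x / y := (one_lt_div hy).2 hcon
  obtain ⟨i, hi⟩ := pow_unbounded_of_one_lt D h1
  have h2 := h i
  rw [div_pow, lt_div_iff₀ (pow_pos hy i)] at hi
  linarith

/-- The Perron eigenvalue. -/
theorem lam_eq {lam : ℝ} {l : Fin n → ℝ} (hl : PW H b0 lam l) (hn : 0 < n) {q : ℕ} (hq : 0 < q)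
    (hg : Gq q H b0) : lam = q := by
  obtain ⟨C, hC⟩ := hg
  have : Nonempty (Fin n) := ⟨⟨0, hn⟩⟩
  obtain ⟨a0, -, ha0⟩ := Finset.exists_min_image Finset.univ l Finset.univ_nonempty
  obtain ⟨a1, -, ha1⟩ := Finset.exists_max_image Finset.univ l Finset.univ_nonempty
  have hlow : ∀ v : List (Fin n), (v.length : ℝ) * l a0 ≤ lw l v := by
    intro v
    induction v with
    | nil => simp [lw_nil]
    | cons a v ih =>
      rw [lw_cons, List.length_cons, Nat.cast_add, Nat.cast_one, add_mul, one_mul]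
      have := ha0 a (Finset.mem_univ a)
      linarith
  have hup : ∀ v : List (Fin n), lw l v ≤ (v.length : ℝ) * l a1 := by
    intro v
    induction v with
    | nil => simp [lw_nil]
    | cons a v ih =>
      rw [lw_cons, List.length_cons, Nat.cast_add, Nat.cast_one, add_mul, one_mul]
      have := ha1 a (Finset.mem_univ a)
      linarith
  have hq' : (0 : ℝ) < q := by exact_mod_cast hq
  apply le_antisymm
  · apply pow_bdd hq' (D := C * l a1)
    intro i
    rw [← hl.lw_w i]
    have h1 := hup (it H i b0)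
    have h2 : ((it H i b0).length : ℝ) ≤ C * (q : ℝ) ^ i := by exact_mod_cast (hC i).2
    have h3 := mul_le_mul_of_nonneg_right h2 (hl.pos a1).le
    calc lw l (it H i b0) ≤ (it H i b0).length * l a1 := h1
      _ ≤ C * (q : ℝ) ^ i * l a1 := h3
      _ = C * l a1 * (q : ℝ) ^ i := by ring
  · apply pow_bdd hl.lam_pos (D := C / l a0)
    intro i
    rw [← hl.lw_w i]
    have h1 := hlow (it H i b0)
    have h2 : (q : ℝ) ^ i ≤ C * ((it H i b0).length : ℝ) := by exact_mod_cast (hC i).1
    have h3 : ((it H i b0).length : ℝ) ≤ lw l (it H i b0) / l a0 := by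
      rw [le_div_iff₀ (hl.pos a0)]
      exact h1
    calc (q : ℝ) ^ i ≤ C * ((it H i b0).length : ℝ) := h2
      _ ≤ C * (lw l (it H i b0) / l a0) := mul_le_mul_of_nonneg_left h3 (Nat.cast_nonneg _)
      _ = C / l a0 * lw l (it H i b0) := by ring

/-- Integer Perron weights. -/
theorem int_weights (hnf : NF H b0 N) {q : ℕ} {l : Fin n → ℝ} (hl : PW H b0 q l) :
    ∃ k : Fin n → ℕ, (∀ a, 0 < k a) ∧ ∀ a, wt k (H a) = q * k a := by
  classical
  set W : Matrix (Fin n) (Fin n) ℤ := Matrix.of fun (i a : Fin n) => ((it H i b0).count a : ℤ) with hW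
  have hu : IsUnit W.det := hnf.unit
  set z : Fin n → ℤ := W⁻¹.mulVec fun i : Fin n => (q : ℤ) ^ (i : ℕ) with hz
  have hWz : W.mulVec z = fun i : Fin n => (q : ℤ) ^ (i : ℕ) := by
    rw [hz, Matrix.mulVec_mulVec, Matrix.mul_nonsing_inv _ hu, Matrix.one_mulVec]
  have hzl : ∀ a, (z a : ℝ) = l a := by
    set WR : Matrix (Fin n) (Fin n) ℝ := W.map (Int.castRingHom ℝ) with hWR
    have hdet : WR.det ≠ 0 := by
      rw [hWR, ← RingHom.mapMatrix_apply, ← RingHom.map_det]
      exact ((Int.castRingHom ℝ).isUnit_map hu).ne_zero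
    have h1 : WR.mulVec (fun a => (z a : ℝ) - l a) = 0 := by
      funext i
      have h2 : ∑ a, (W i a : ℝ) * (z a : ℝ) = (q : ℝ) ^ (i : ℕ) := by
        have h3 := congrFun hWz i
        rw [Matrix.mulVec, dotProduct] at h3
        exact_mod_cast h3
      have h4 : ∑ a, (W i a : ℝ) * l a = (q : ℝ) ^ (i : ℕ) := by
        rw [← hl.lw_w, lw_count]
        refine Finset.sum_congr rfl fun a _ => ?_
        rw [hW, Matrix.of_apply]
        push_cast
        rfl
      rw [Matrix.mulVec, dotProduct, Pi.zero_apply]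
      have h5 : ∀ a, WR i a * ((z a : ℝ) - l a) = (W i a : ℝ) * (z a : ℝ) - (W i a : ℝ) * l a := by
        intro a
        rw [hWR, Matrix.map_apply]
        simp only [eq_intCast]
        ring
      rw [Finset.sum_congr rfl fun a _ => h5 a, Finset.sum_sub_distrib, h2, h4, sub_self]
    intro a
    by_contra hne
    apply hdet
    rw [← Matrix.exists_mulVec_eq_zero_iff]
    refine ⟨_, ?_, h1⟩
    intro h0
    exact hne (sub_eq_zero.1 (congrFun h0 a))
  have hzpos : ∀ a, 0 < z a := by
    intro a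
    have h1 := hl.pos a
    rw [← hzl] at h1
    exact_mod_cast h1
  have hk : ∀ a, ((z a).toNat : ℝ) = l a := by
    intro a
    rw [← hzl]
    have h1 : (((z a).toNat : ℤ) : ℝ) = (z a : ℝ) := by rw [Int.toNat_of_nonneg (hzpos a).le]
    exact_mod_cast h1
  have hwt : ∀ u : List (Fin n), (wt (fun a => (z a).toNat) u : ℝ) = lw l u := by
    intro u
    induction u with
    | nil => simp [wt_nil, lw_nil]
    | cons a u ih => rw [wt_cons, lw_cons, Nat.cast_add, ih, hk]
  refine ⟨fun a => (z a).toNat, ?_, ?_⟩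
  · intro a
    have := hzpos a
    change 0 < (z a).toNat
    omega
  · intro a
    have h1 := hl.eig a
    rw [← hwt, ← hk] at h1
    exact_mod_cast h1

/-- **Normal forms of prime power growth consist of letters.** -/
theorem letters_of_growth (hnf : NF H b0 N) {q : ℕ} (hq : IsPrimePow q) (hg : Gq q H b0) :
    ∀ i < n, (it H i b0).length = 1 := by
  obtain ⟨lam, l, hl⟩ := perron hnf
  have h1 := lam_eq hl (pos_n hnf) hq.pos hg
  rw [h1] at hl
  obtain ⟨k, h2, h3⟩ := int_weights hnf hl
  obtain ⟨p, m, hp, -, rfl⟩ := (isPrimePow_nat_iff q).1 hq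
  exact letters_of_weights hp h2 h3 hnf.hull hnf.first hnf.last

end D0L.Uni
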