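import Pool.Agent.H.MP_374efc_lc.Uni.U2
import Pool.Agent.H.MP_374efc_lc.Oe.Gq

/-!
# MP_374efc_lc: the class of the systems with word lengths of order `q ^ n`, `q` a prime power
-/

set_option autoImplicit false

namespace D0L.Uni

/-- Word lengths of order `q ^ n` for some prime power `q`. -/
def Pg (α : Type) [Fintype α] (h : α → List α) (w : List α) : Prop := ∃ q, IsPrimePow q ∧ Gq q h w

theorem exists_len {α β : Type} [Fintype α] (f : α → List β) : ∃ m, ∀ a, (f a).length ≤ m :=
  ⟨∑ a, (f a).length, fun a =>
    Finset.single_le_sum (f := fun a => (f a).length) (fun _ _ => Nat.zero_le _) (Finset.mem_univ a)⟩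

theorem pg_closed : ClQ Pg where
  gf := by
    rintro α δ _ _ h f g w hfg - - ⟨q, hq, C, hC⟩
    obtain ⟨mf, hmf⟩ := exists_len f
    obtain ⟨mg, hmg⟩ := exists_len g
    refine ⟨q, hq, C * (mf + mg), fun i => ?_⟩
    obtain ⟨h1, h2⟩ := hC i
    obtain ⟨h3, -⟩ := hC (i + 1)
    have h4 : it h (i + 1) w = app g (app f (it h i w)) := by
      rw [it_succ, app_app]
      congr 1
      funext a
      exact (hfg a).symm
    have h5 := length_app_le hmg (app f (it h i w))
    have h6 := length_app_le hmf (it h i w)
    rw [← h4] at h5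
    rw [it_gf hfg]
    have h7 : q ^ i ≤ q ^ (i + 1) := Nat.pow_le_pow_right hq.pos (Nat.le_succ i)
    constructor
    · calc q ^ i ≤ q ^ (i + 1) := h7
        _ ≤ C * (it h (i + 1) w).length := h3
        _ ≤ C * (mg * (app f (it h i w)).length) := Nat.mul_le_mul_left C h5
        _ ≤ C * ((mf + mg) * (app f (it h i w)).length) :=
          Nat.mul_le_mul_left C (Nat.mul_le_mul_right _ (Nat.le_add_left mg mf))
        _ = C * (mf + mg) * (app f (it h i w)).length := by ring
    · calc (app f (it h i w)).length ≤ mf * (it h i w).length := h6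
        _ ≤ mf * (C * q ^ i) := Nat.mul_le_mul_left mf h2
        _ ≤ (mf + mg) * (C * q ^ i) := Nat.mul_le_mul_right _ (Nat.le_add_right mf mg)
        _ = C * (mf + mg) * q ^ i := by ring
  orbit := by
    rintro α β _ _ h w g u ι t m - ht hg hu - ⟨q, hq, C, hC⟩
    refine ⟨q ^ t, hq.pow ht.ne', C * q ^ m, fun i => ?_⟩
    obtain ⟨h1, h2⟩ := hC (t * i + m)
    have h3 : (it g i u).length = (it h (t * i + m) w).length := by
      have h4 := congrArg List.length (it_map hg i u)
      rw [List.length_map, hu, ← it_add] at h4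
      exact h4
    rw [h3, ← pow_mul]
    constructor
    · calc q ^ (t * i) ≤ q ^ (t * i + m) := Nat.pow_le_pow_right hq.pos (Nat.le_add_right _ _)
        _ ≤ C * (it h (t * i + m) w).length := h1
        _ ≤ C * q ^ m * (it h (t * i + m) w).length :=
          Nat.mul_le_mul_right _ (Nat.le_mul_of_pos_right C (pow_pos hq.pos m))
    · calc (it h (t * i + m) w).length ≤ C * q ^ (t * i + m) := h2
        _ = C * q ^ m * q ^ (t * i) := by rw [pow_add]; ring
  shift := by
    rintro α _ h w s ⟨q, hq, C, hC⟩
    refine ⟨q, hq, C * q ^ s, fun i => ?_⟩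
    obtain ⟨h1, h2⟩ := hC (i + s)
    rw [← it_add]
    constructor
    · calc q ^ i ≤ q ^ (i + s) := Nat.pow_le_pow_right hq.pos (Nat.le_add_right _ _)
        _ ≤ C * (it h (i + s) w).length := h1
        _ ≤ C * q ^ s * (it h (i + s) w).length :=
          Nat.mul_le_mul_right _ (Nat.le_mul_of_pos_right C (pow_pos hq.pos s))
    · calc (it h (i + s) w).length ≤ C * q ^ (i + s) := h2
        _ = C * q ^ s * q ^ i := by rw [pow_add]; ring
  code := by
    rintro α β _ _ h k c v hc hk ⟨q, hq, C, hC⟩
    obtain ⟨mc, hmc⟩ := exists_len c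
    have hcne : ∀ b, c b ≠ [] := by
      intro b hb
      have h1 : app c [b] = app c [] := by rw [app_singleton, hb, app_nil]
      simpa using hc h1
    refine ⟨q, hq, C * (mc + 1), fun i => ?_⟩
    obtain ⟨h1, h2⟩ := hC i
    rw [← it_code hk] at h1 h2
    have h3 := length_app_le hmc (it k i v)
    have h4 := length_le_app hcne (it k i v)
    constructor
    · calc q ^ i ≤ C * (app c (it k i v)).length := h1
        _ ≤ C * (mc * (it k i v).length) := Nat.mul_le_mul_left C h3
        _ ≤ C * ((mc + 1) * (it k i v).length) :=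
          Nat.mul_le_mul_left C (Nat.mul_le_mul_right _ (Nat.le_succ mc))
        _ = C * (mc + 1) * (it k i v).length := by ring
    · calc (it k i v).length ≤ (app c (it k i v)).length := h4
        _ ≤ C * q ^ i := h2
        _ ≤ C * (mc + 1) * q ^ i := Nat.mul_le_mul_right _ (Nat.le_mul_of_pos_right C (Nat.succ_pos mc))

/-- **A computable bound for the locally catenative systems of prime power growth.** -/
theorem bound_pg : ∃ F, Computable F ∧ ∀ (α : Type) [Fintype α] (h : α → List α) (w : List α) (s : ℕ),
    Sz s h w → Pg α h w → LC h w → ∃ p ≤ F s, Rel h w p :=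
  boundQ_letters pg_closed fun _ _ _ _ hnf hq => by
    obtain ⟨q, h1, h2⟩ := hq
    exact letters_of_growth hnf h1 h2

end D0L.Uni
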