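import Pool.Agent.H.MP_374efc_lc.Uni.U3
import Pool.Agent.H.MP_374efc_lc.Zt.Qf

/-!
# MP_374efc_lc: growth of order `q ^ n` and the relation

If the words are not empty and `w_p` is the product of the words `w_j`, `j ∈ js`, then the word lengths are of order
`q ^ n` iff `q ^ p = ∑ q ^ j`.  Decision of 'locally catenative and of prime power growth'.
-/

set_option autoImplicit false

namespace D0L.Uni

variable {α : Type} {h : α → List α} {w : List α}

theorem length_rel {p : ℕ} {js : List ℕ} (h3 : it h p w = (js.map (fun j => it h j w)).flatten) (i : ℕ) :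
    (it h (i + p) w).length = (js.map (fun j => (it h (i + j) w).length)).sum := by
  have h1 := it_prod (h := h) (w := w) i 0 js
  simp only [Nat.zero_add, Nat.add_zero] at h1
  rw [it_add, h3, h1, List.length_flatten, List.map_map]
  rfl

theorem sum_map_le {f g : ℕ → ℕ} (js : List ℕ) (hfg : ∀ j ∈ js, f j ≤ g j) :
    (js.map f).sum ≤ (js.map g).sum := List.sum_le_sum hfg

/-- A root gives the growth. -/
theorem growth_of_root {p : ℕ} {js : List ℕ} (h2 : ∀ j ∈ js, j < p)
    (h3 : it h p w = (js.map (fun j => it h j w)).flatten) (hne : ∀ i, it h i w ≠ [])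
    {q : ℕ} (hq : 0 < q) (hroot : q ^ p = (js.map (fun j => q ^ j)).sum) : Gq q h w := by
  set R := ∑ i ∈ Finset.range p, (it h i w).length with hR
  have hlen : ∀ i, 1 ≤ (it h i w).length := fun i => List.length_pos_of_ne_nil (hne i)
  have hlow : ∀ i, q ^ i ≤ q ^ p * (it h i w).length := by
    intro i
    induction i using Nat.strong_induction_on with
    | _ i ih =>
      rcases Nat.lt_or_ge i p with hi | hi
      · calc q ^ i ≤ q ^ p := Nat.pow_le_pow_right hq hi.le
          _ ≤ q ^ p * (it h i w).length := Nat.le_mul_of_pos_right _ (hlen i)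
      · obtain ⟨k, rfl⟩ := Nat.exists_eq_add_of_le' hi
        rw [length_rel h3, pow_add, hroot, ← hroot, ← List.sum_map_mul_left]
        calc q ^ k * q ^ p = (js.map (fun j => q ^ (k + j))).sum := by
              rw [hroot, ← List.sum_map_mul_left]
              congr 1
              apply List.map_congr_left
              intro j _
              rw [pow_add]
          _ ≤ _ := sum_map_le js fun j hj => ih (k + j) (by have := h2 j hj; omega)
  have hup : ∀ i, (it h i w).length ≤ R * q ^ i := by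
    intro i
    induction i using Nat.strong_induction_on with
    | _ i ih =>
      rcases Nat.lt_or_ge i p with hi | hi
      · calc (it h i w).length ≤ R :=
              Finset.single_le_sum (f := fun i => (it h i w).length) (fun _ _ => Nat.zero_le _)
                (Finset.mem_range.2 hi)
          _ ≤ R * q ^ i := Nat.le_mul_of_pos_right _ (pow_pos hq i)
      · obtain ⟨k, rfl⟩ := Nat.exists_eq_add_of_le' hi
        rw [length_rel h3]
        calc (js.map (fun j => (it h (k + j) w).length)).sum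
            ≤ (js.map (fun j => R * q ^ (k + j))).sum :=
              sum_map_le js fun j hj => ih (k + j) (by have := h2 j hj; omega)
          _ = R * q ^ k * (js.map (fun j => q ^ j)).sum := by
              rw [← List.sum_map_mul_left]
              congr 1
              apply List.map_congr_left
              intro j _
              rw [pow_add, mul_assoc]
          _ = R * q ^ (k + p) := by rw [← hroot, pow_add, mul_assoc]
  refine ⟨q ^ p + R, fun i => ⟨(hlow i).trans (Nat.mul_le_mul_right _ (Nat.le_add_right _ _)),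
    (hup i).trans (Nat.mul_le_mul_right _ (Nat.le_add_left _ _))⟩⟩

/-- The growth gives a root. -/
theorem root_of_growth {p : ℕ} {js : List ℕ} (h1 : js ≠ []) (h2 : ∀ j ∈ js, j < p)
    (h3 : it h p w = (js.map (fun j => it h j w)).flatten) {q : ℕ} (hq : 0 < q) (hg : Gq q h w) :
    q ^ p = (js.map (fun j => q ^ j)).sum := by
  obtain ⟨C, hC⟩ := hg
  have hq' : (0 : ℝ) < q := by exact_mod_cast hq
  set x : ℕ → ℝ := fun i => ((it h i w).length : ℝ) / (q : ℝ) ^ i with hx
  set S : ℝ := (((js.map (fun j => q ^ j)).sum : ℕ) : ℝ) with hS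
  set σ : ℝ := S / (q : ℝ) ^ p with hσ
  have hp : 0 < p := by
    obtain ⟨j, hj⟩ := List.exists_mem_of_ne_nil js h1
    exact lt_of_le_of_lt (Nat.zero_le _) (h2 j hj)
  have hCpos : (0 : ℝ) < C := by
    have h4 := (hC 0).1
    rw [pow_zero] at h4
    rcases Nat.eq_zero_or_pos C with h5 | h5
    · rw [h5, zero_mul] at h4
      omega
    · exact_mod_cast h5
  have hxlow : ∀ i, 1 / (C : ℝ) ≤ x i := by
    intro i
    rw [hx, div_le_div_iff₀ hCpos (pow_pos hq' i), one_mul, mul_comm]
    exact_mod_cast (hC i).1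
  have hxup : ∀ i, x i ≤ C := by
    intro i
    rw [hx, div_le_iff₀ (pow_pos hq' i)]
    exact_mod_cast (hC i).2
  have hrec : ∀ i, x (i + p) = (js.map (fun j => (q : ℝ) ^ j / (q : ℝ) ^ p * x (i + j))).sum := by
    intro i
    rw [hx]
    simp only
    rw [length_rel h3]
    have h4 : ∀ L : List ℕ, (((L.map (fun j => (it h (i + j) w).length)).sum : ℕ) : ℝ) / (q : ℝ) ^ (i + p) =
        (L.map (fun j => (q : ℝ) ^ j / (q : ℝ) ^ p * (((it h (i + j) w).length : ℝ) / (q : ℝ) ^ (i + j)))).sum := by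
      intro L
      induction L with
      | nil => simp
      | cons j L ih =>
        rw [List.map_cons, List.sum_cons, Nat.cast_add, add_div, ih, List.map_cons, List.sum_cons]
        congr 1
        rw [pow_add, pow_add]
        field_simp
    exact h4 js
  have hσsum : ∀ t : ℝ, (js.map (fun j => (q : ℝ) ^ j / (q : ℝ) ^ p * t)).sum = σ * t := by
    intro t
    have h4 : ∀ L : List ℕ, (L.map (fun j => (q : ℝ) ^ j / (q : ℝ) ^ p * t)).sum =
        (((L.map (fun j => q ^ j)).sum : ℕ) : ℝ) / (q : ℝ) ^ p * t := by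
      intro L
      induction L with
      | nil => simp
      | cons j L ih =>
        rw [List.map_cons, List.sum_cons, ih, List.map_cons, List.sum_cons]
        push_cast
        ring
    rw [h4 js]
  have hσpos : 0 < σ := by
    apply div_pos _ (pow_pos hq' p)
    obtain ⟨j, hj⟩ := List.exists_mem_of_ne_nil js h1
    have h4 : q ^ j ≤ (js.map (fun j => q ^ j)).sum :=
      List.single_le_sum (fun x _ => Nat.zero_le x) _ (List.mem_map.2 ⟨j, hj, rfl⟩)
    have h5 := pow_pos hq j
    rw [hS]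
    exact_mod_cast lt_of_lt_of_le h5 h4
  have hlow : ∀ m i, m * p ≤ i → σ ^ m * (1 / C) ≤ x i := by
    intro m
    induction m with
    | zero => intro i _; rw [pow_zero, one_mul]; exact hxlow i
    | succ m ih =>
      intro i hi
      obtain ⟨k, rfl⟩ : ∃ k, i = k + p := ⟨i - p, by rw [Nat.succ_mul] at hi; omega⟩
      have hk : m * p ≤ k := by
        rw [Nat.succ_mul] at hi
        omega
      rw [hrec, pow_succ', mul_assoc, ← hσsum]
      apply List.sum_le_sum
      intro j _
      exact mul_le_mul_of_nonneg_left (ih (k + j) (by omega)) (by positivity)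
  have hup : ∀ m i, m * p ≤ i → x i ≤ σ ^ m * C := by
    intro m
    induction m with
    | zero => intro i _; rw [pow_zero, one_mul]; exact hxup i
    | succ m ih =>
      intro i hi
      obtain ⟨k, rfl⟩ : ∃ k, i = k + p := ⟨i - p, by rw [Nat.succ_mul] at hi; omega⟩
      have hk : m * p ≤ k := by
        rw [Nat.succ_mul] at hi
        omega
      rw [hrec, pow_succ', mul_assoc, ← hσsum]
      apply List.sum_le_sum
      intro j _
      exact mul_le_mul_of_nonneg_left (ih (k + j) (by omega)) (by positivity)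
  have hσ1 : σ = 1 := by
    apply le_antisymm
    · have h4 : ∀ m : ℕ, σ ^ m ≤ C * C * 1 ^ m := by
        intro m
        have h5 := (hlow m (m * p) le_rfl).trans (hxup _)
        rw [mul_one_div, div_le_iff₀ hCpos] at h5
        rwa [one_pow, mul_one]
      exact pow_bdd one_pos h4
    · have h4 : ∀ m : ℕ, (1 : ℝ) ^ m ≤ C * C * σ ^ m := by
        intro m
        have h5 := (hxlow _).trans (hup m (m * p) le_rfl)
        rw [div_le_iff₀ hCpos] at h5
        rw [one_pow]
        calc (1 : ℝ) ≤ σ ^ m * C * C := h5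
          _ = C * C * σ ^ m := by ring
      exact pow_bdd hσpos h4
  rw [hσ, div_eq_one_iff_eq (pow_pos hq' p).ne', hS] at hσ1
  exact_mod_cast hσ1.symm

/-! ### prime powers -/

/-- Prime powers with bounded quantifiers. -/
def PPow (q : ℕ) : Prop :=
  ∃ a < q + 1, ∃ k < q + 1, (1 < a ∧ ∀ x < a, ∀ y < a, x * y ≠ a) ∧ 0 < k ∧ a ^ k = q

theorem ppow_iff (q : ℕ) : PPow q ↔ IsPrimePow q := by
  rw [isPrimePow_nat_iff]
  constructor
  · rintro ⟨a, -, k, -, ⟨h1, h2⟩, h3, h4⟩
    refine ⟨a, k, ?_, h3, h4⟩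
    by_contra hcon
    obtain ⟨x, y, hx, hy, hxy⟩ := (Nat.not_prime_iff_exists_mul_eq h1).1 hcon
    exact h2 x hx y hy hxy
  · rintro ⟨a, k, h1, h2, h3⟩
    refine ⟨a, ?_, k, ?_, ⟨h1.one_lt, ?_⟩, h2, h3⟩
    · rw [← h3]
      exact Nat.lt_succ_of_le (Nat.le_self_pow h2.ne' a)
    · rw [← h3]
      exact Nat.lt_succ_of_lt (Nat.lt_pow_self h1.one_lt)
    · intro x hx y hy hxy
      exact (Nat.not_prime_iff_exists_mul_eq h1.two_le).2 ⟨x, y, hx, hy, hxy⟩ h1

theorem ex_lt {β : Type} [Primcodable β] {R : ℕ → β → Prop} (hR : PrimrecRel R) :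
    PrimrecRel (fun (n : ℕ) (y : β) => ∃ x < n, R x y) :=
  (hR.exists_mem_list.comp (Primrec.list_range.comp Primrec.fst) Primrec.snd).of_eq (by simp)

theorem all_lt {β : Type} [Primcodable β] {R : ℕ → β → Prop} (hR : PrimrecRel R) :
    PrimrecRel (fun (n : ℕ) (y : β) => ∀ x < n, R x y) :=
  (hR.forall_mem_list.comp (Primrec.list_range.comp Primrec.fst) Primrec.snd).of_eq (by simp)

theorem prim_pow : Primrec₂ (fun a b : ℕ => a ^ b) := Primrec₂.unpaired'.1 Nat.Primrec.pow

theorem prim_ppow : PrimrecPred PPow := by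
  have h1 : PrimrecPred (fun a : ℕ => 1 < a ∧ ∀ x < a, ∀ y < a, x * y ≠ a) := by
    have e1 : PrimrecRel (fun (y : ℕ) (z : ℕ × ℕ) => z.1 * y ≠ z.2) :=
      (Primrec.eq.comp (Primrec.nat_mul.comp (Primrec.fst.comp Primrec.snd) Primrec.fst)
        (Primrec.snd.comp Primrec.snd)).not
    have e2 : PrimrecRel (fun (n : ℕ) (z : ℕ × ℕ) => ∀ y < n, z.1 * y ≠ z.2) := all_lt e1
    have e3 : PrimrecRel (fun (x : ℕ) (a : ℕ) => ∀ y < a, x * y ≠ a) :=
      e2.comp Primrec.snd (Primrec.fst.pair Primrec.snd)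
    have e4 : PrimrecRel (fun (n : ℕ) (a : ℕ) => ∀ x < n, ∀ y < a, x * y ≠ a) := all_lt e3
    have e5 : PrimrecPred (fun a : ℕ => ∀ x < a, ∀ y < a, x * y ≠ a) := e4.comp Primrec.id Primrec.id
    exact (Primrec.nat_lt.comp (Primrec.const 1) Primrec.id).and e5
  have h2 : PrimrecRel (fun (k : ℕ) (z : ℕ × ℕ) =>
      (1 < z.1 ∧ ∀ x < z.1, ∀ y < z.1, x * y ≠ z.1) ∧ 0 < k ∧ z.1 ^ k = z.2) := by
    refine (h1.comp (Primrec.fst.comp Primrec.snd)).and ?_
    refine (Primrec.nat_lt.comp (Primrec.const 0) Primrec.fst).and ?_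
    exact Primrec.eq.comp (prim_pow.comp (Primrec.fst.comp Primrec.snd) Primrec.fst)
      (Primrec.snd.comp Primrec.snd)
  have h3 : PrimrecRel (fun (n : ℕ) (z : ℕ × ℕ) => ∃ k < n,
      (1 < z.1 ∧ ∀ x < z.1, ∀ y < z.1, x * y ≠ z.1) ∧ 0 < k ∧ z.1 ^ k = z.2) := ex_lt h2
  have h4 : PrimrecRel (fun (a : ℕ) (q : ℕ) => ∃ k < q + 1,
      (1 < a ∧ ∀ x < a, ∀ y < a, x * y ≠ a) ∧ 0 < k ∧ a ^ k = q) :=
    h3.comp (Primrec.succ.comp Primrec.snd) (Primrec.fst.pair Primrec.snd)
  exact (ex_lt h4).comp (Primrec.succ.comp Primrec.id) Primrec.id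

/-! ### the decision -/

/-- A relation at level `p` with a prime power root. -/
def RelP (s : List (List ℕ) × List ℕ) (p : ℕ) : Prop :=
  ∃ js ∈ cand p (sqn s p).length, (js.map (sqn s)).flatten = sqn s p ∧
    ∃ q < js.length + 1, PPow q ∧ (js.map (fun j => q ^ j)).sum = q ^ p

theorem prim_relP : PrimrecRel RelP := by
  have h1 : PrimrecRel (fun (js : List ℕ) (x : (List (List ℕ) × List ℕ) × ℕ) =>
      (js.map (sqn x.1)).flatten = sqn x.1 x.2) := by
    refine Primrec.eq.comp₂ ?_ ?_
    · refine (Primrec.list_flatten.comp (Primrec.list_map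
        (f := fun y : List ℕ × ((List (List ℕ) × List ℕ) × ℕ) => y.1)
        (g := fun y j => sqn y.2.1 j) Primrec.fst ?_)).to₂
      exact prim_sqn.comp₂ ((Primrec.fst.comp Primrec.snd).comp Primrec.fst).to₂ Primrec.snd.to₂
    · exact (prim_sqn.comp (Primrec.fst.comp Primrec.snd) (Primrec.snd.comp Primrec.snd)).to₂
  have h2 : PrimrecRel (fun (q : ℕ) (z : List ℕ × ℕ) =>
      PPow q ∧ (z.1.map (fun j => q ^ j)).sum = q ^ z.2) := by
    refine (prim_ppow.comp Primrec.fst).and ?_
    refine Primrec.eq.comp ?_ (prim_pow.comp Primrec.fst (Primrec.snd.comp Primrec.snd))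
    refine prim_sum.comp (Primrec.list_map (f := fun y : ℕ × (List ℕ × ℕ) => y.2.1)
      (g := fun y j => y.1 ^ j) (Primrec.fst.comp Primrec.snd) ?_)
    exact prim_pow.comp₂ (Primrec.fst.comp Primrec.fst).to₂ Primrec.snd.to₂
  have h3 : PrimrecRel (fun (js : List ℕ) (x : (List (List ℕ) × List ℕ) × ℕ) =>
      ∃ q < js.length + 1, PPow q ∧ (js.map (fun j => q ^ j)).sum = q ^ x.2) :=
    (ex_lt h2).comp (Primrec.succ.comp (Primrec.list_length.comp Primrec.fst))
      (Primrec.fst.pair (Primrec.snd.comp Primrec.snd))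
  have h4 : PrimrecRel (fun (L : List (List ℕ)) (x : (List (List ℕ) × List ℕ) × ℕ) =>
      ∃ js ∈ L, (js.map (sqn x.1)).flatten = sqn x.1 x.2 ∧
        ∃ q < js.length + 1, PPow q ∧ (js.map (fun j => q ^ j)).sum = q ^ x.2) := by
    have h5 : PrimrecRel (fun (js : List ℕ) (x : (List (List ℕ) × List ℕ) × ℕ) =>
        (js.map (sqn x.1)).flatten = sqn x.1 x.2 ∧
        ∃ q < js.length + 1, PPow q ∧ (js.map (fun j => q ^ j)).sum = q ^ x.2) := PrimrecPred.and h1 h3
    exact h5.exists_mem_list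
  exact h4.comp (f := fun x : (List (List ℕ) × List ℕ) × ℕ => cand x.2 (sqn x.1 x.2).length)
    (g := fun x => x) (prim_cand.comp Primrec.snd (Primrec.list_length.comp prim_sqn)) Primrec.id

theorem ne_forever {s : List (List ℕ) × List ℕ} (hne : sqn s (nl s) ≠ []) (i : ℕ) : sqn s i ≠ [] := by
  intro h0
  apply hne
  have h1 : it (hf s) i (wf s) = [] := by
    have := it_val s i
    rw [h0] at this
    exact List.map_eq_nil_iff.1 this
  have h2 := it_ker (hf s) i (wf s) [] (by rw [h1, it_nil])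
  rw [Fintype.card_fin, it_nil] at h2
  rw [← it_val, h2]
  rfl

theorem gq_val (s : List (List ℕ) × List ℕ) (q : ℕ) : Gq q (hf s) (wf s) ↔ Gq q (hs s) s.2 := by
  have h1 : ∀ i, (it (hf s) i (wf s)).length = (it (hs s) i s.2).length := by
    intro i
    rw [← List.length_map (f := Fin.val), it_val]
    rfl
  unfold Gq
  simp only [h1]

/-- The test. -/
def DP (m : ℕ) (s : List (List ℕ) × List ℕ) : Prop := sqn s (nl s) ≠ [] ∧ ∃ p < m, RelP s p

/-- The bounded form. -/
theorem pg_iff {F : ℕ → ℕ} (hB : ∀ (α : Type) [Fintype α] (h : α → List α) (w : List α) (s : ℕ),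
    Sz s h w → Pg α h w → LC h w → ∃ p ≤ F s, Rel h w p) (s : List (List ℕ) × List ℕ) :
    DP (F (sz s) + 1) s ↔ (LC (hs s) s.2 ∧ ∃ q, IsPrimePow q ∧ Gq q (hs s) s.2) := by
  constructor
  · rintro ⟨hne, p, -, js, h1, h2, q, -, h3, h4⟩
    obtain ⟨h5, -, h6⟩ := mem_cand.1 h1
    rw [ppow_iff] at h3
    exact ⟨⟨p, js, h5, h6, h2.symm⟩, q, h3,
      growth_of_root h6 h2.symm (ne_forever hne) h3.pos h4.symm⟩
  · rintro ⟨hlc, q, hq, hg⟩
    have hlc' : LC (hf s) (wf s) := by
      obtain ⟨p, hp⟩ := hlc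
      exact ⟨p, (rel_val s p).2 hp⟩
    obtain ⟨p, hp, hp'⟩ := hB (Fin (nl s)) (hf s) (wf s) (sz s) (sz_ok s)
      ⟨q, hq, (gq_val s q).2 hg⟩ hlc'
    rw [rel_val, rel_iff_cand] at hp'
    obtain ⟨js, h1, h2⟩ := hp'
    obtain ⟨h3, -, h4⟩ := mem_cand.1 h1
    have hroot := root_of_growth h3 h4 h2.symm hq.pos hg
    refine ⟨?_, p, Nat.lt_succ_of_le hp, js, h1, h2, q, ?_, (ppow_iff q).2 hq, hroot.symm⟩
    · obtain ⟨C, hC⟩ := hg
      intro h0
      have h5 : q ^ nl s ≤ C * (sqn s (nl s)).length := (hC (nl s)).1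
      rw [h0, List.length_nil, Nat.mul_zero] at h5
      exact absurd (pow_pos hq.pos (nl s)) (Nat.not_lt.2 h5)
    · have hp0 : 0 < p := by
        obtain ⟨j, hj⟩ := List.exists_mem_of_ne_nil js h3
        exact lt_of_le_of_lt (Nat.zero_le _) (h4 j hj)
      obtain ⟨m, rfl⟩ : ∃ m, p = m + 1 := ⟨p - 1, by omega⟩
      have h5 : (js.map (fun j => q ^ j)).sum ≤ js.length * q ^ m := by
        have h6 : ∀ x ∈ js.map (fun j => q ^ j), x ≤ q ^ m := by
          intro x hx
          obtain ⟨j, hj, rfl⟩ := List.mem_map.1 hx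
          exact Nat.pow_le_pow_right hq.pos (Nat.le_of_lt_succ (h4 j hj))
        have h7 := List.sum_le_card_nsmul _ _ h6
        rwa [List.length_map, smul_eq_mul] at h7
      rw [← hroot, pow_succ, mul_comm] at h5
      exact Nat.lt_succ_of_le (Nat.le_of_mul_le_mul_right h5 (pow_pos hq.pos m))

theorem prim_nl : Primrec nl := by
  have h1 : Primrec (fun s : List (List ℕ) × List ℕ => s.1.flatten) :=
    Primrec.list_flatten.comp Primrec.fst
  refine Primrec.succ.comp ?_
  exact Primrec.nat_add.comp (Primrec.nat_add.comp (Primrec.list_length.comp Primrec.fst)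
    (prim_sum.comp h1)) (prim_sum.comp Primrec.snd)

theorem prim_dec : PrimrecRel DP := by
  have h1 : PrimrecRel (fun (m : ℕ) (s : List (List ℕ) × List ℕ) => ∃ p < m, RelP s p) :=
    ex_lt (R := fun (p : ℕ) (s : List (List ℕ) × List ℕ) => RelP s p) prim_relP.swap
  have h2 : PrimrecPred (fun s : List (List ℕ) × List ℕ => sqn s (nl s) ≠ []) :=
    (Primrec.eq.comp (prim_sqn.comp Primrec.id prim_nl) (Primrec.const [])).not
  have h3 : PrimrecPred (fun x : ℕ × (List (List ℕ) × List ℕ) => sqn x.2 (nl x.2) ≠ []) :=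
    h2.comp Primrec.snd
  exact PrimrecPred.and h3 h1

/-- **It is decidable whether a D0L system is locally catenative and of prime power growth.** -/
theorem pg_comp : ComputablePred (fun s : List (List ℕ) × List ℕ =>
    LC (hs s) s.2 ∧ ∃ q, IsPrimePow q ∧ Gq q (hs s) s.2) := by
  obtain ⟨F, hF, hB⟩ := bound_pg
  obtain ⟨hd, h3⟩ := prim_dec
  refine ComputablePred.of_eq (p := fun s => DP (F (sz s) + 1) s) ?_ (fun s => pg_iff hB s)
  refine ⟨fun s => hd (F (sz s) + 1, s), ?_⟩
  have h4 : Computable (fun s : List (List ℕ) × List ℕ => (F (sz s) + 1, s)) :=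
    (Computable.succ.comp (hF.comp prim_sz.to_comp)).pair Computable.id
  have h5 := h3.to_comp.comp h4
  exact h5

end D0L.Uni
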